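import Pool.Agent.U331.FS.V
import Pool.Agent.Results.MP_87f965_ag.ThinFamilyNormForms

/-!
# Norm forms of abelian fields: rational points outside ALL thin sets near the integral combinations of an infinite sequence

Let `f` be any integral polynomial of degree at least two in `s + 1` variables, and let the `Kᵢ` be admissible abelian fields. We show
that EVERY set `B` of natural numbers of positive lower density contains an infinite sequence `a_0, a_1, …` with the
following property. Let `(T_j, N_j, Θ_j)` be any sequence of finite sets of primes, of levels and of finite sets of covers (for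
example an enumeration of ALL of them). For ALL nonzero integral vectors `u` with finite support and entries of absolute value at
most `H`, with largest index `n`, for ALL integers `k` with `||k| - |∑ uᵢ aᵢ|| ≤ n` and for ALL `j ≤ n` the variety
`V_k : N_{Kᵢ/ℚ}(zᵢ) = cᵢ (f(t) + k) ≠ 0` has rational points outside the thin set given by `Θ_j`, with approximation of level `N_j`
at the primes of `T_j`. So for every single thin set only finitely many levels `n` are left out. There is no exception
among the infinitely many combinations.

Proof: a greedy choice. At the step `n` there are at most `(2 H + 1) ^ (n + 1)` conditions for the new term, each of them excludes at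
most twice as many integers as there are integers near the exceptions of the starting result `ThinFamilyNormForms` for the
first `n + 1` triples, and these have density zero (`Pool.Agent.U331.FS`).
-/

set_option autoImplicit false

namespace Pool.Agent.Results.MP_87f965_ag.AllCombinations

open MvPolynomial Module
open Pool.Agent.U331.FS (AllSumsDens all_sums_seq_int of_log)
open Pool.Agent.Results.MP_87f965_ag.ThinFamilyNormForms (Admissible ApproximationOutside RealCond Covers)

variable {L : Type} [Field L] [NumberField L] {r s : ℕ}

/-- a finite set of primes, a level and a finite set of polynomials which define a thin set -/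
structure Data (s : ℕ) where
  /-- the finite set of primes -/
  T : Finset Nat.Primes
  /-- the level of the approximation -/
  N : ℕ
  /-- the covers which define the thin set -/
  Θ : Finset (Polynomial (MvPolynomial (Fin (s + 1)) ℤ))
  /-- they have no root in the field of rational functions -/
  thin : ∀ P ∈ Θ, P ∈ Covers s

/-- For ALL `j ≤ n` and ALL integers `k` with `||k| - v| ≤ n` which satisfy the condition at the real place the variety `V_k` has the
property `ApproximationOutside` for the data with the number `j`. -/
def Near (K : Fin r → IntermediateField ℚ L) (f : MvPolynomial (Fin (s + 1)) ℤ) (c : Fin r → ℤ) (D : ℕ → Data s)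
    (n v : ℕ) : Prop :=
  ∀ j ≤ n, ∀ k : ℤ, |(|k| : ℤ) - v| ≤ n → RealCond K f c k → ApproximationOutside K f c (D j).T (D j).N (D j).Θ k

/-- The same without the condition at the real place, for the coefficients `cᵢ = 1`. -/
def NearOne (K : Fin r → IntermediateField ℚ L) (f : MvPolynomial (Fin (s + 1)) ℤ) (D : ℕ → Data s) (n v : ℕ) : Prop :=
  ∀ j ≤ n, ∀ k : ℤ, |(|k| : ℤ) - v| ≤ n → ApproximationOutside K f (fun _ => 1) (D j).T (D j).N (D j).Θ k

/-- **Theorem.** Let `L` be the `m`-th cyclotomic field, `Kᵢ` admissible subfields, `f` an integral polynomial of degree at least `2`.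
(1) For all nonzero integers `cᵢ` there is a finite set `T₀` of primes such that for all sequences of data whose sets of primes
contain `T₀` the property `Near K f c D n v` holds for all combinations `v` with bounded coefficients and largest index `n` of an
infinite sequence in every set of positive lower density (`AllSumsDens`). (2) If the degree of `f` is prime to the degrees of the
`Kᵢ`, and if it is odd or `-1` is a norm from all the `Kᵢ`, then the same holds for `NearOne K f D n v` and all sequences of data. -/
theorem result (m : ℕ) [NeZero m] [IsCyclotomicExtension {m} ℚ L] (K : Fin r → IntermediateField ℚ L)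
    (hK : ∀ i, Admissible (K i)) (f : MvPolynomial (Fin (s + 1)) ℤ) (hf : 2 ≤ f.totalDegree) :
    (∀ c : Fin r → ℤ, (∀ i, c i ≠ 0) → ∃ T₀ : Finset Nat.Primes, ∀ D : ℕ → Data s, (∀ j, T₀ ⊆ (D j).T) →
      AllSumsDens (fun n _ v => Near K f c D n v)) ∧
    ((∀ i, f.totalDegree.Coprime (finrank ℚ (K i))) →
      (Odd f.totalDegree ∨ ∀ i, ∃ x : K i, Algebra.norm ℚ x = -1) →
      ∀ D : ℕ → Data s, AllSumsDens (fun n _ v => NearOne K f D n v)) := by
  classical
  obtain ⟨h1, h2⟩ := ThinFamilyNormForms.result m K hK f hf
  constructor
  · intro c hc
    obtain ⟨T₀, h⟩ := h1 c hc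
    refine ⟨T₀, fun D hD => ?_⟩
    refine all_sums_seq_int (G := fun j k => RealCond K f c k → ApproximationOutside K f c (D j).T (D j).N (D j).Θ k)
      (fun j => of_log ?_)
    obtain ⟨X₀, h⟩ := h (D j).T (hD j) (D j).N 1 (D j).Θ (D j).thin
    refine ⟨X₀, fun X hX => ?_⟩
    have e : {k : ℤ | |k| ≤ (X : ℤ) ∧ ¬ (RealCond K f c k → ApproximationOutside K f c (D j).T (D j).N (D j).Θ k)} =
        (((Finset.Icc (-(X : ℤ)) X).filter
          (fun k => ¬ (RealCond K f c k → ApproximationOutside K f c (D j).T (D j).N (D j).Θ k)) : Finset ℤ) : Set ℤ) := by
      ext k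
      simp only [Finset.coe_filter, Finset.mem_Icc, Set.mem_ofPred_eq, abs_le]
    rw [e, Set.ncard_coe_finset]
    have h3 := h X hX
    rw [pow_one] at h3
    convert h3 using 3
  · intro hcop hodd D
    refine all_sums_seq_int (G := fun j k => ApproximationOutside K f (fun _ => 1) (D j).T (D j).N (D j).Θ k)
      (fun j => of_log ?_)
    obtain ⟨X₀, h⟩ := h2 hcop hodd (D j).T (D j).N 1 (D j).Θ (D j).thin
    refine ⟨X₀, fun X hX => ?_⟩
    have e : {k : ℤ | |k| ≤ (X : ℤ) ∧ ¬ ApproximationOutside K f (fun _ => 1) (D j).T (D j).N (D j).Θ k} =
        (((Finset.Icc (-(X : ℤ)) X).filter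
          (fun k => ¬ ApproximationOutside K f (fun _ => 1) (D j).T (D j).N (D j).Θ k) : Finset ℤ) : Set ℤ) := by
      ext k
      simp only [Finset.coe_filter, Finset.mem_Icc, Set.mem_ofPred_eq, abs_le]
    rw [e, Set.ncard_coe_finset]
    have h3 := h X hX
    rw [pow_one] at h3
    convert h3 using 3

end Pool.Agent.Results.MP_87f965_ag.AllCombinations
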