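import Pool.Agent.U637.NR.H3

/-!
# MP_87f965_ag: rational points outside thin sets on almost all `N_{K/ℚ}(z) = c (f(t) + k)`, for every
# number field `K`

Let `K` be ANY number field (no hypothesis on the Galois group, the class group or the units; the Hasse norm
principle may fail), `f` an integral polynomial of degree `d ≥ 2` and `c ≠ 0` an integer. The varieties
`V_k : N_{K/ℚ}(z) = c (f(t) + k) ≠ 0`, `k` an integer, are smooth and geometrically rational, so that their
smooth projective models are algebraically simply connected. They are the fibres of the function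
`k = N_{K/ℚ}(z) / c - f(t)` on the affine space with the coordinates `(t, z)`, the total space of the
family. Let `Θ` be any finite set of covers of this total space, given by polynomials `P(t, z, w)` without
roots `w` in the field `ℚ(t, z)`. (The restrictions of these covers to `V_k` may vary with `k` in any
algebraic way, since `k` is a polynomial function of `(t, z)`; also all hypersurfaces of the total space are
allowed.) We show: for almost all `k` (all but `ε X ^ d` of those with `|k| ≤ B X ^ d`), if `V_k` has points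
over `ℝ` and all `ℚ_p`, then it has a rational point outside the thin set given by `Θ`, and such a point can
be found near to any given local points at a finite set `T` of primes, with given signs of `z` at the real
embeddings of `K`.

Proof. Every `P` is, up to a factor, a product of nonzero constants and of polynomials which are irreducible
of degree at least two in `w`. For each of these factors there is a set of primes `p` with divergent sum of
`1 / p`, such that in one class `a_p` of vectors `(t, z)` modulo `p` the factor has no root in `ℚ_p`, and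
`f'(t) z₀` is not `0` modulo `p` at `a_p` (project HB of the starting library). The class `a_p` meets `V_k`
if `k` is in one residue class modulo `p` (Hensel's lemma). By a sieve almost all `k` are in this class for
one of finitely many of these `p` (`NR/H1`), and for different factors different primes can be chosen
(`NR/H2`). Hence the local points at these primes can be chosen in the classes `a_p`, and the weak
approximation theorem for almost all `k` (`NR/G9`), applied to `T` together with all possible choices of the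
primes, gives a rational point outside the thin set (`NR/H3`).
-/

set_option autoImplicit false

namespace Pool.Agent.Results.MP_87f965_ag.NormFormsOfEveryField

open Finset Polynomial NumberField Module TensorProduct

instance (p : Nat.Primes) : Fact (p : ℕ).Prime := ⟨p.2⟩

variable (K : Type) [Field K] [NumberField K] {n : ℕ}

/-- The point `(t, z)` with coordinates in the field `F` lies on `V_k : N_{K/ℚ}(z) = c (f(t) + k) ≠ 0`.
The coordinate `z` is an element of `F ⊗ K`. -/
def OnV (f : ℤ[X]) (c k : ℤ) {F : Type} [Field F] [Algebra ℚ F] (t : F) (z : F ⊗[ℚ] K) : Prop :=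
  aeval t f + (k : F) ≠ 0 ∧ Algebra.norm F z = (c : F) * (aeval t f + (k : F))

variable {K} in
/-- The coordinates of an element of `F ⊗ K`, with respect to an integral basis of `K`. -/
noncomputable def coord {F : Type} [Field F] [Algebra ℚ F] (z : F ⊗[ℚ] K)
    (j : Free.ChooseBasisIndex ℤ (𝓞 K)) : F :=
  (Algebra.TensorProduct.basis F (integralBasis K)).repr z j

variable {K} in
/-- The value in `ℝ` of an element of `ℝ ⊗ K` at a real embedding of `K`: `a ⊗ y` has the value
`a σ(y)`. -/
noncomputable def value (σ : K →+* ℝ) : ℝ ⊗[ℚ] K →ₐ[ℝ] ℝ :=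
  Algebra.TensorProduct.lift (AlgHom.id ℝ ℝ) (RingHom.equivRatAlgHom K ℝ σ) (fun _ _ => Commute.all _ _)

/-- The covers of the space with the coordinates `(t, z₀, …, zₙ)`: the polynomials `P(t, z₀, …, zₙ, w)` in
`w`, whose coefficients are integral polynomials in `t, z₀, …, zₙ`, which have no root `w` in the field of
rational functions `ℚ(t, z₀, …, zₙ)`. The sets of the rational vectors `(t, z)` for which one of finitely
many such polynomials has a rational root `w`, and their subsets, are the thin subsets of the space. -/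
def Covers (n : ℕ) : Set (Polynomial (MvPolynomial (Fin (n + 2)) ℤ)) :=
  {P | ∀ w : FractionRing (MvPolynomial (Fin (n + 2)) ℤ), Polynomial.aeval w P ≠ 0}

variable {K} in
/-- The vector `(q, y₀, …, yₙ)` of the coordinates of the rational point `(q, y)`, where the `yᵢ` are the
coordinates of `y` with respect to the integral basis, in the order given by `e`. -/
noncomputable def vector (e : Fin (n + 1) ≃ Free.ChooseBasisIndex ℤ (𝓞 K)) (q : ℚ) (y : K) : Fin (n + 2) → ℚ :=
  Fin.cons q (fun i => (integralBasis K).repr y (e i))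

/-- The value of `P` at the rational vector `x` and the rational number `w`. -/
noncomputable def valueAt (P : Polynomial (MvPolynomial (Fin (n + 2)) ℤ)) (x : Fin (n + 2) → ℚ) (w : ℚ) : ℚ :=
  P.eval₂ (MvPolynomial.eval₂Hom (Int.castRingHom ℚ) x) w

/-- The Hasse principle and weak approximation for `V_k`, of level `N` at the primes of `T`, by rational
points outside the thin set given by `Θ`. For all families of points `(t_p, z_p)` of `V_k` over all the `ℚ_p`
and `(tr, zr)` over `ℝ` (where for `p` in `T` the coordinates of `(t_p, z_p)` have absolute value at most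
`p ^ N` and `|f(t_p) + k| ≥ p ^ (-N)`) there is a rational point `(q, y)` of `V_k`, whose coordinates are
within `p ^ (-N)` of those of `(t_p, z_p)` for all `p` in `T`, for which `y` has the same sign as `zr` at
all real embeddings of `K`, and such that `P(q, y, w) ≠ 0` for all `P` in `Θ` and all rational `w`. -/
def ApproximationOutside (e : Fin (n + 1) ≃ Free.ChooseBasisIndex ℤ (𝓞 K)) (f : ℤ[X]) (c : ℤ)
    (T : Finset Nat.Primes) (N : ℕ) (Θ : Finset (Polynomial (MvPolynomial (Fin (n + 2)) ℤ))) (k : ℤ) : Prop :=
  ∀ (t : (p : Nat.Primes) → ℚ_[(p : ℕ)]) (z : (p : Nat.Primes) → ℚ_[(p : ℕ)] ⊗[ℚ] K) (tr : ℝ)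
    (zr : ℝ ⊗[ℚ] K), (∀ p, OnV K f c k (t p) (z p)) → OnV K f c k tr zr →
    (∀ p ∈ T, ‖t p‖ ≤ ((p : ℕ) : ℝ) ^ N ∧ (∀ j, ‖coord (z p) j‖ ≤ ((p : ℕ) : ℝ) ^ N) ∧
      (((p : ℕ) : ℝ) ^ N)⁻¹ ≤ ‖aeval (t p) f + (k : ℚ_[(p : ℕ)])‖) →
    ∃ (q : ℚ) (y : K), aeval q f + (k : ℚ) ≠ 0 ∧ Algebra.norm ℚ y = (c : ℚ) * (aeval q f + (k : ℚ)) ∧
      (∀ σ : K →+* ℝ, 0 < σ y ↔ 0 < value σ zr) ∧
      (∀ p ∈ T, ‖(q : ℚ_[(p : ℕ)]) - t p‖ ≤ (((p : ℕ) : ℝ) ^ N)⁻¹ ∧
        ∀ j, ‖(((integralBasis K).repr y j : ℚ) : ℚ_[(p : ℕ)]) - coord (z p) j‖ ≤ (((p : ℕ) : ℝ) ^ N)⁻¹) ∧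
      ∀ P ∈ Θ, ∀ w : ℚ, valueAt P (vector e q y) w ≠ 0

open Classical in
/-- For every number field `K` (of degree `n + 1`), every polynomial `f` of degree `d ≥ 2`, every finite set
`Θ` of covers of the total space and all `c`, `T`, `N`, `B` and `ε > 0`: if `X` is large, then all but at
most `ε X ^ d` of the `V_k` with `|k| ≤ B X ^ d` satisfy the Hasse principle and weak approximation of level
`N` at `T` by rational points outside the thin set given by `Θ`. -/
theorem result (e : Fin (n + 1) ≃ Free.ChooseBasisIndex ℤ (𝓞 K)) (f : ℤ[X]) (hf : 2 ≤ f.natDegree) (c : ℤ)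
    (hc : c ≠ 0) (T : Finset Nat.Primes) (N B : ℕ) (hB : 1 ≤ B)
    (Θ : Finset (Polynomial (MvPolynomial (Fin (n + 2)) ℤ))) (hΘ : ∀ P ∈ Θ, P ∈ Covers n) (ε : ℝ) (hε : 0 < ε) :
    ∃ X₀ : ℕ, ∀ X : ℕ, X₀ ≤ X →
      (#{k ∈ Icc (-((B * X ^ f.natDegree : ℕ) : ℤ)) ((B * X ^ f.natDegree : ℕ) : ℤ) |
        ¬ ApproximationOutside K e f c T N Θ k} : ℝ) ≤ ε * (X : ℝ) ^ f.natDegree := by
  have hP : Pool.Agent.Y214.HB.NoRoot (∏ P ∈ Θ, P) := by
    intro w h0
    unfold Pool.Agent.Y214.HB.toK at h0
    rw [Polynomial.map_prod, Polynomial.eval_prod, prod_eq_zero_iff] at h0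
    obtain ⟨P, hP, h1⟩ := h0
    apply hΘ P hP w
    rw [← h1, Polynomial.eval_map_algebraMap]
  obtain ⟨X0, h⟩ := Pool.Agent.U637.NR.wa_thin (K := K) f hf c hc T N B hB e _ hP ε hε
  refine ⟨X0, fun X hX => ?_⟩
  obtain ⟨Bad, hB1, hB2⟩ := h X hX
  have hsub : {k ∈ Icc (-((B * X ^ f.natDegree : ℕ) : ℤ)) ((B * X ^ f.natDegree : ℕ) : ℤ) |
      ¬ ApproximationOutside K e f c T N Θ k} ⊆ Bad := by
    intro k hk
    rw [mem_filter] at hk
    obtain ⟨hk1, hk2⟩ := hk
    by_contra hkB
    apply hk2
    intro t z tr zr hV hr hT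
    obtain ⟨q, y, h1, h2, h3, h4, h5⟩ := hB2 k (abs_le.2 (mem_Icc.1 hk1)) hkB t z tr zr hV
      (fun p hp => ⟨hV p, hT p hp⟩) hr
    refine ⟨q, y, h1, h2, h3, h4, fun P hP w h0 => h5 w ?_⟩
    rw [Polynomial.map_prod, Polynomial.eval_prod]
    apply prod_eq_zero hP
    rw [Polynomial.eval_map]
    exact h0
  have h2 : (#{k ∈ Icc (-((B * X ^ f.natDegree : ℕ) : ℤ)) ((B * X ^ f.natDegree : ℕ) : ℤ) |
      ¬ ApproximationOutside K e f c T N Θ k} : ℝ) ≤ #Bad := by
    exact_mod_cast card_le_card hsub
  exact h2.trans hB1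

end Pool.Agent.Results.MP_87f965_ag.NormFormsOfEveryField
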